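import Mathlib

set_option autoImplicit false

/-! The Nullstellensatz over a domain, and reduction of algebraic integers modulo large primes. -/

namespace Pool.Agent.U100.MR

open MvPolynomial

attribute [local instance] MvPolynomial.algebraMvPolynomial in
/-- If `Q` vanishes at the common zeros of the `H i` then a power of `Q` times a nonzero constant is in
the ideal generated by them. -/
theorem nullst {O M K ι : Type} [CommRing O] [IsDomain O] [Field M] [Field K] [IsAlgClosed K]
    [Algebra O M] [IsFractionRing O M] [Algebra M K] {n : ℕ}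
    (H : ι → MvPolynomial (Fin n) O) (Q : MvPolynomial (Fin n) O)
    (h : ∀ x : Fin n → K, (∀ i, eval₂ ((algebraMap M K).comp (algebraMap O M)) x (H i) = 0) →
      eval₂ ((algebraMap M K).comp (algebraMap O M)) x Q = 0) :
    ∃ (b : O) (e : ℕ), b ≠ 0 ∧ C b * Q ^ e ∈ Ideal.span (Set.range H) := by
  have hev : ∀ (x : Fin n → K) (P : MvPolynomial (Fin n) O),
      aeval x (map (algebraMap O M) P) = eval₂ ((algebraMap M K).comp (algebraMap O M)) x P := by
    intro x P
    rw [aeval_def, eval₂_map]
  set I := Ideal.span (Set.range H) with hI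
  have h1 : map (algebraMap O M) Q ∈ (I.map (map (algebraMap O M))).radical := by
    rw [← vanishingIdeal_zeroLocus_eq_radical (K := K), mem_vanishingIdeal_iff]
    intro x hx
    rw [hev]
    apply h x
    intro i
    rw [← hev]
    rw [mem_zeroLocus_iff] at hx
    exact hx _ (Ideal.mem_map_of_mem _ (Ideal.subset_span ⟨i, rfl⟩))
  obtain ⟨e, he⟩ := h1
  have h2 : (map (algebraMap O M) Q) ^ e = algebraMap (MvPolynomial (Fin n) O) _ (Q ^ e) := by
    rw [map_pow]; rfl
  rw [h2] at he
  have h3 : I.map (map (algebraMap O M)) =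
      I.map (algebraMap (MvPolynomial (Fin n) O) (MvPolynomial (Fin n) M)) := rfl
  rw [h3, IsLocalization.mem_map_algebraMap_iff
    (Submonoid.map (C (σ := Fin n)) (nonZeroDivisors O))] at he
  obtain ⟨⟨⟨a, ha⟩, ⟨_, b, hb, rfl⟩⟩, hab⟩ := he
  refine ⟨b, e, mem_nonZeroDivisors_iff_ne_zero.mp hb, ?_⟩
  have h4 : Q ^ e * C b = a := by
    apply map_injective (algebraMap O M) (IsFractionRing.injective O M)
    rw [map_mul]
    exact hab
  rw [mul_comm, h4]
  exact ha

/-- A nonzero algebraic integer is not zero modulo large primes. -/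
theorem bad_primes {O : Type} [CommRing O] [IsDomain O] [Algebra.IsIntegral ℤ O] (b : O)
    (hb : b ≠ 0) : ∃ D : ℕ, 0 < D ∧ ∀ p : ℕ, p.Prime → ¬ p ∣ D →
      ∀ (k : Type) [Field k] [CharP k p] (φ : O →+* k), φ b ≠ 0 := by
  obtain ⟨r, hr, c, hc⟩ := (Algebra.IsIntegral.isIntegral (R := ℤ) b).isAlgebraic.exists_nonzero_dvd
    (mem_nonZeroDivisors_iff_ne_zero.mpr hb)
  refine ⟨r.natAbs, Int.natAbs_pos.2 hr, ?_⟩
  intro p hp hpr k _ _ φ h0
  apply hpr
  have h1 : φ (algebraMap ℤ O r) = 0 := by rw [hc, map_mul, h0, zero_mul]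
  have h2 : ((r : ℤ) : k) = 0 := by
    rw [← h1]
    simp
  rw [CharP.intCast_eq_zero_iff k p] at h2
  exact Int.natCast_dvd.1 h2

/-- An element of a field of characteristic `p` with `y ^ p = y` lies in the prime field. -/
theorem mem_prime_field {p : ℕ} [Fact p.Prime] {k : Type} [Field k] [CharP k p] (y : k)
    (hy : y ^ p = y) : ∃ b : ZMod p, ZMod.castHom (dvd_refl p) k b = y := by
  have h1 := (Subfield.mem_bot_iff_pow_eq_self k p).2 hy
  rw [← ZMod.fieldRange_castHom_eq_bot (K := k) p] at h1
  exact h1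

end Pool.Agent.U100.MR
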