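import Pool.Agent.U100.MR.Alg
import Pool.Agent.W401.Cheb.Main
import Pool.Agent.H927R2.RD.Core
import Pool.Agent.H927R2.RD.T16

set_option autoImplicit false

/-! Reduction modulo a prime with a given Frobenius element. -/

namespace Pool.Agent.U100.MR

open MvPolynomial NumberField
open Pool.Agent.W401.Cheb (HasFrob)

/-- the conjugation by an element of the Galois group on the ring of integers -/
noncomputable def act {M : Type} [Field M] [NumberField M] (g : Gal(M/ℚ)) : 𝓞 M →+* 𝓞 M :=
  MulSemiringAction.toRingHom _ (𝓞 M) g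

theorem frob_pow {M : Type} [Field M] [NumberField M] {k : Type} [Field k] {p : ℕ}
    {φ : 𝓞 M →+* k} {g : Gal(M/ℚ)} (h : HasFrob p φ g) (m : ℕ) (c : 𝓞 M) :
    φ (act (g ^ m) c) = φ c ^ p ^ m := by
  induction m generalizing c with
  | zero =>
    rw [pow_zero, pow_zero, pow_one]
    congr 1
  | succ m ih =>
    have h1 : act (g ^ (m + 1)) c = act (g ^ m) (g • c) := by
      show (g ^ (m + 1)) • c = (g ^ m) • (g • c)
      rw [smul_smul, pow_succ]
    rw [h1, ih, h c, ← pow_mul, pow_succ, mul_comm]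

/-- the point with coordinates in the prime field -/
def bar {p n : ℕ} (k : Type) [Field k] [CharP k p] (x : Fin n → ZMod p) : Fin n → k :=
  fun i => ZMod.castHom (dvd_refl p) k (x i)

theorem conj_zero {M : Type} [Field M] [NumberField M] {k : Type} [Field k] {p n : ℕ}
    [Fact p.Prime] [CharP k p] {φ : 𝓞 M →+* k} {g : Gal(M/ℚ)} (h : HasFrob p φ g)
    (G : MvPolynomial (Fin n) (𝓞 M)) (x : Fin n → ZMod p) (h0 : eval₂ φ (bar k x) G = 0) (m : ℕ) :
    eval₂ φ (bar k x) (map (act (g ^ m)) G) = 0 := by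
  rw [eval₂_map]
  have h1 : φ.comp (act (g ^ m)) = (iterateFrobenius k p m).comp φ := by
    ext c
    rw [RingHom.comp_apply, RingHom.comp_apply, frob_pow h, iterateFrobenius_def]
  have h2 : bar k x = (iterateFrobenius k p m) ∘ (bar k x) := by
    funext i
    simp only [bar, Function.comp_apply]
    rw [iterateFrobenius_def, ← map_pow, ZMod.pow_card_pow]
  rw [h1, h2, ← eval₂_comp_left, h0, map_zero]

/-- ideal membership and reduction -/
theorem span_zero {O k ι : Type} [CommRing O] [Field k] {n : ℕ} (φ : O →+* k) (y : Fin n → k)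
    (H : ι → MvPolynomial (Fin n) O) (hH : ∀ i, eval₂ φ y (H i) = 0) {P : MvPolynomial (Fin n) O}
    (hP : P ∈ Ideal.span (Set.range H)) : eval₂ φ y P = 0 := by
  have h1 : Ideal.span (Set.range H) ≤ RingHom.ker (eval₂Hom φ y) := by
    rw [Ideal.span_le]
    rintro _ ⟨i, rfl⟩
    exact hH i
  exact h1 hP

end Pool.Agent.U100.MR
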