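import Pool.Agent.U100.MR.Frob

set_option autoImplicit false

/-! Reduction modulo a prime with a given Frobenius element, continued. -/

namespace Pool.Agent.U100.MR

open MvPolynomial NumberField
open Pool.Agent.W401.Cheb (HasFrob)

theorem bar_zero {p n : ℕ} [Fact p.Prime] {k : Type} [Field k] [CharP k p] {x : Fin n → ZMod p}
    {i : Fin n} (h : bar k x i = 0) : x i = 0 :=
  (map_eq_zero (ZMod.castHom (dvd_refl p) k)).1 h

/-- The conjugates of `G` have no common zero: then the reduction of `G` has no zero in `𝔽_p ^ n`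
but `0`. -/
theorem moved_mod {M K : Type} [Field M] [NumberField M] [Field K] [IsAlgClosed K] [Algebra M K]
    {n : ℕ} (g : Gal(M/ℚ)) (G : MvPolynomial (Fin n) (𝓞 M))
    (hG : ∀ x : Fin n → K, (∀ m : ℕ, eval₂ ((algebraMap M K).comp (algebraMap (𝓞 M) M)) x
      (map (act (g ^ m)) G) = 0) → x = 0) :
    ∃ D : ℕ, 0 < D ∧ ∀ (p : ℕ) [Fact p.Prime], ¬ p ∣ D → ∀ (k : Type) [Field k] [CharP k p]
      (φ : 𝓞 M →+* k), HasFrob p φ g → ∀ x : Fin n → ZMod p,
        eval₂ φ (bar k x) G = 0 → x = 0 := by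
  have h1 : ∀ i : Fin n, ∃ (b : 𝓞 M) (e : ℕ), b ≠ 0 ∧
      C b * (X i) ^ e ∈ Ideal.span (Set.range fun m : ℕ => map (act (g ^ m)) G) := by
    intro i
    refine nullst (K := K) (M := M) _ _ fun x hx => ?_
    rw [eval₂_X, hG x hx]
    rfl
  choose b e hb hbe using h1
  have hprod : ∏ i, b i ≠ 0 := Finset.prod_ne_zero_iff.2 fun i _ => hb i
  obtain ⟨D, hD, hbad⟩ := bad_primes (∏ i, b i) hprod
  refine ⟨D, hD, ?_⟩
  intro p hp hpD k _ _ φ hφ x hx
  have h2 := hbad p hp.out hpD k φ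
  rw [map_prod, Finset.prod_ne_zero_iff] at h2
  funext i
  have h3 := span_zero φ (bar k x) _ (fun m => conj_zero hφ G x hx m) (hbe i)
  rw [eval₂_mul, eval₂_C, eval₂_pow, eval₂_X, mul_eq_zero] at h3
  rcases h3 with h3 | h3
  · exact absurd h3 (h2 i (Finset.mem_univ i))
  · rcases Nat.eq_zero_or_pos (e i) with h | h
    · rw [h, pow_zero] at h3
      exact absurd h3 one_ne_zero
    · exact bar_zero ((pow_eq_zero_iff h.ne').1 h3)

/-- Integral polynomials without common zeros but `0` have no common zeros modulo large primes. -/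
theorem common_mod {K ι : Type} [Field K] [IsAlgClosed K] [CharZero K] {n : ℕ}
    (F : ι → MvPolynomial (Fin n) ℤ)
    (hF : ∀ x : Fin n → K, (∀ i, eval₂ (Int.castRingHom K) x (F i) = 0) → x = 0) :
    ∃ D : ℕ, 0 < D ∧ ∀ (p : ℕ) [Fact p.Prime], ¬ p ∣ D → ∀ x : Fin n → ZMod p,
      (∀ i, eval₂ (Int.castRingHom (ZMod p)) x (F i) = 0) → x = 0 := by
  let _ : Algebra ℚ K := DivisionRing.toRatAlgebra
  have hr : (algebraMap ℚ K).comp (algebraMap ℤ ℚ) = Int.castRingHom K := RingHom.ext_int _ _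
  have h1 : ∀ i : Fin n, ∃ (b : ℤ) (e : ℕ), b ≠ 0 ∧ C b * (X i) ^ e ∈ Ideal.span (Set.range F) := by
    intro i
    refine nullst (K := K) (M := ℚ) _ _ fun x hx => ?_
    rw [hr] at hx ⊢
    rw [eval₂_X, hF x hx]
    rfl
  choose b e hb hbe using h1
  have hprod : ∏ i, b i ≠ 0 := Finset.prod_ne_zero_iff.2 fun i _ => hb i
  obtain ⟨D, hD, hbad⟩ := bad_primes (∏ i, b i) hprod
  refine ⟨D, hD, ?_⟩
  intro p hp hpD x hx
  have h2 := hbad p hp.out hpD (ZMod p) (Int.castRingHom (ZMod p))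
  rw [map_prod, Finset.prod_ne_zero_iff] at h2
  funext i
  have h3 := span_zero (Int.castRingHom (ZMod p)) x _ hx (hbe i)
  rw [eval₂_mul, eval₂_C, eval₂_pow, eval₂_X, mul_eq_zero] at h3
  rcases h3 with h3 | h3
  · exact absurd h3 (h2 i (Finset.mem_univ i))
  · rcases Nat.eq_zero_or_pos (e i) with h | h
    · rw [h, pow_zero] at h3
      exact absurd h3 one_ne_zero
    · exact (pow_eq_zero_iff h.ne').1 h3

/-- The zeros of `J` are zeros of the `G a`: the same modulo large primes. -/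
theorem crit_mod {M K ι : Type} [Field M] [NumberField M] [Field K] [IsAlgClosed K] [Algebra M K]
    [Fintype ι] {n : ℕ} (J : MvPolynomial (Fin n) (𝓞 M)) (G : ι → MvPolynomial (Fin n) (𝓞 M))
    (hJ : ∀ x : Fin n → K, x ≠ 0 →
      eval₂ ((algebraMap M K).comp (algebraMap (𝓞 M) M)) x J = 0 →
      ∃ a, eval₂ ((algebraMap M K).comp (algebraMap (𝓞 M) M)) x (G a) = 0) :
    ∃ D : ℕ, 0 < D ∧ ∀ (p : ℕ) [Fact p.Prime], ¬ p ∣ D → ∀ (k : Type) [Field k] [CharP k p]
      (φ : 𝓞 M →+* k) (x : Fin n → ZMod p), x ≠ 0 → eval₂ φ (bar k x) J = 0 →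
        ∃ a, eval₂ φ (bar k x) (G a) = 0 := by
  have h1 : ∀ i : Fin n, ∃ (b : 𝓞 M) (e : ℕ), b ≠ 0 ∧
      C b * (X i * ∏ a, G a) ^ e ∈ Ideal.span (Set.range fun _ : Unit => J) := by
    intro i
    refine nullst (K := K) (M := M) _ _ fun x hx => ?_
    by_cases h0 : x = 0
    · rw [eval₂_mul, eval₂_X, h0, Pi.zero_apply, zero_mul]
    · obtain ⟨a, ha⟩ := hJ x h0 (hx ())
      rw [eval₂_mul, eval₂_prod, Finset.prod_eq_zero (Finset.mem_univ a) ha, mul_zero]
  choose b e hb hbe using h1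
  have hprod : ∏ i, b i ≠ 0 := Finset.prod_ne_zero_iff.2 fun i _ => hb i
  obtain ⟨D, hD, hbad⟩ := bad_primes (∏ i, b i) hprod
  refine ⟨D, hD, ?_⟩
  intro p hp hpD k _ _ φ x hx0 hx
  have h2 := hbad p hp.out hpD k φ
  rw [map_prod, Finset.prod_ne_zero_iff] at h2
  obtain ⟨i, hi⟩ := Function.ne_iff.1 hx0
  have h3 := span_zero φ (bar k x) _ (fun _ => hx) (hbe i)
  rw [eval₂_mul, eval₂_C, eval₂_pow, mul_eq_zero] at h3
  rcases h3 with h3 | h3
  · exact absurd h3 (h2 i (Finset.mem_univ i))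
  · have h4 : eval₂ φ (bar k x) (X i * ∏ a, G a) = 0 := by
      rcases Nat.eq_zero_or_pos (e i) with h | h
      · rw [h, pow_zero] at h3
        exact absurd h3 one_ne_zero
      · exact (pow_eq_zero_iff h.ne').1 h3
    rw [eval₂_mul, eval₂_X, mul_eq_zero] at h4
    rcases h4 with h4 | h4
    · exact absurd (bar_zero h4) hi
    · rw [eval₂_prod, Finset.prod_eq_zero_iff] at h4
      obtain ⟨a, -, ha⟩ := h4
      exact ⟨a, ha⟩

end Pool.Agent.U100.MR
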